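import Pool.Agent.H919R4.ZS.Defs
import Pool.Agent.H496R3.ZS.Stmt

/-!
Square summable chains, twisted by a unitary character, on a covering of a finite aspherical
complex.

Let `X : FinRes G` be the cellular chain complex of the universal cover of a finite aspherical
complex `M` with fundamental group `G`, let `C` be a subgroup of `G` and let `χ : C → ℂ` be a
unitary character. A `k`-chain of the covering `M_C` with fundamental group `C`, with
coefficients in the flat unitary line bundle of `χ`, is the same as a tuple of functions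
`f j : G → ℂ`, one for each `k`-cell of `M`, with `f j (c x) = χ(c) f j x` for `c ∈ C`.
-/

set_option autoImplicit false

namespace Pool.Agent.TH254.ZT

open Pool.Agent.H919R4.ZS (FinRes)

variable {G : Type} [Group G]

/-- `f` is a tuple of square summable functions on `C \ G`, twisted by the character `χ` of `C`:
`f j (c x) = χ(c) f j x`, and the sums of `|f j x|^2` over finite sets `T` of elements of `G`
lying in pairwise different cosets `C x` are bounded. -/
def IsChain {C : Subgroup G} (χ : C →* ℂ) {m : ℕ} (f : Fin m → G → ℂ) : Prop :=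
  (∀ (j : Fin m) (c : C) (x : G), f j (c * x) = χ c * f j x) ∧
  ∃ B : ℝ, ∀ (j : Fin m) (T : Finset G), (∀ x ∈ T, ∀ y ∈ T, x * y⁻¹ ∈ C → x = y) →
    ∑ x ∈ T, ‖f j x‖ ^ 2 ≤ B

/-- The boundary of an `(i+1)`-chain `f`: `(∂ f) k = ∑_j f j · d i j k`, where an element
`a = ∑_g a_g g` of `ℤ[G]` acts from the right on functions, `(f · a)(x) = ∑_g a_g f(x g⁻¹)`. -/
def bdry (X : FinRes G) (i : ℕ) (f : Fin (X.n (i + 1)) → G → ℂ) : Fin (X.n i) → G → ℂ :=
  fun k x => ∑ j, ∑ g ∈ (X.d i j k).coeff.support, ((X.d i j k).coeff g : ℂ) * f j (x * g⁻¹)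

/-- The cycles: all chains in degree `0`, and the chains with boundary `0` in positive degree. -/
def IsCycle (X : FinRes G) : ∀ k : ℕ, (Fin (X.n k) → G → ℂ) → Prop
  | 0, _ => True
  | i + 1, f => bdry X i f = 0

end Pool.Agent.TH254.ZT
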